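import Mathlib

/-!
Finite monodromy and the comparison of the closure of a period matrix with the fibre of the
closure of the graph of the period matrix.
-/

namespace Pool.Agent.W242.FM

open Complex

/-- the field of algebraic numbers inside the complex numbers -/
noncomputable abbrev Qb : IntermediateField ℚ ℂ := algebraicClosure ℚ ℂ

variable {m T : Type*} [Fintype m] [DecidableEq m]

/-- evaluation of a polynomial in `s` and the matrix entries, with algebraic coefficients -/
noncomputable def evS (s₀ : ℂ) (M : Matrix m m ℂ) (F : MvPolynomial (Option (m × m)) Qb) : ℂ :=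
  MvPolynomial.aeval (fun v : Option (m × m) => v.elim s₀ (fun p => M p.1 p.2)) F

/-- evaluation of a polynomial in the matrix entries, with algebraic coefficients -/
noncomputable def evM (M : Matrix m m ℂ) (F : MvPolynomial (m × m) Qb) : ℂ :=
  MvPolynomial.aeval (fun p : m × m => M p.1 p.2) F

/-- The fibre over `s₀` of the Zariski closure over the algebraic numbers, inside `S × GL_m`,
of the graph `{(s τ, P τ)}` of a multi-valued function; here `T` is the set of points of a
covering of `S` on which `P` becomes a function. -/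
def fibre (s : T → ℂ) (P : T → Matrix m m ℂ) (s₀ : ℂ) : Set (Matrix m m ℂ) :=
  {M | M.det ≠ 0 ∧ ∀ F : MvPolynomial (Option (m × m)) Qb,
    (∀ τ, evS (s τ) (P τ) F = 0) → evS s₀ M F = 0}

/-- The Zariski closure over the algebraic numbers of the point `M₀`, inside `GL_m`. -/
def pointClosure (M₀ : Matrix m m ℂ) : Set (Matrix m m ℂ) :=
  {M | M.det ≠ 0 ∧ ∀ F : MvPolynomial (m × m) Qb, evM M₀ F = 0 → evM M F = 0}

theorem self_mem_fibre (s : T → ℂ) (P : T → Matrix m m ℂ) (hP : ∀ τ, (P τ).det ≠ 0) (τ : T) :
    P τ ∈ fibre s P (s τ) := ⟨hP τ, fun _ h => h τ⟩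

/-- specialisation of the first variable at an algebraic number -/
noncomputable def spec (a : Qb) : MvPolynomial (Option (m × m)) Qb →ₐ[Qb] MvPolynomial (m × m) Qb :=
  MvPolynomial.aeval (fun v : Option (m × m) => v.elim (MvPolynomial.C a) MvPolynomial.X)

omit [Fintype m] [DecidableEq m] in
theorem evM_spec (a : Qb) (M : Matrix m m ℂ) (F : MvPolynomial (Option (m × m)) Qb) :
    evM M (spec a F) = evS (a : ℂ) M F := by
  unfold evM evS spec
  rw [← AlgHom.comp_apply]
  congr 1
  apply MvPolynomial.algHom_ext
  intro v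
  cases v with
  | none => simp [IntermediateField.algebraMap_apply]
  | some p => simp

theorem pointClosure_subset_fibre (s : T → ℂ) (P : T → Matrix m m ℂ)
    (τ : T) (hs : IsAlgebraic ℚ (s τ)) :
    pointClosure (P τ) ⊆ fibre s P (s τ) := by
  intro M hM
  refine ⟨hM.1, fun F hF => ?_⟩
  have ha : s τ ∈ Qb := by
    rw [mem_algebraicClosure_iff]; exact hs
  have h := hM.2 (spec ⟨s τ, ha⟩ F) (by rw [evM_spec]; exact hF τ)
  rw [evM_spec] at h
  exact h

/-- the block matrix which is the period matrix of a family over a double covering `u ^ 2 = s`,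
considered as a family over the `s`-line -/
def block {n : Type*} (u : ℂ) (A A' : Matrix n n ℂ) : Matrix (n ⊕ n) (n ⊕ n) ℂ :=
  Matrix.fromBlocks A A' (u • A) (-u • A')

theorem det_block {n : Type*} [Fintype n] [DecidableEq n] (u : ℂ) (A A' : Matrix n n ℂ) :
    (block u A A').det = A.det * ((-2 * u) • A').det := by
  have h : block u A A' = Matrix.fromBlocks 1 0 (u • (1 : Matrix n n ℂ)) 1 *
      Matrix.fromBlocks A A' 0 ((-2 * u) • A') := by
    unfold block
    rw [Matrix.fromBlocks_multiply]
    simp only [Matrix.one_mul, Matrix.zero_mul, add_zero, Matrix.smul_mul]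
    congr 1
    rw [← add_smul]
    congr 1
    ring
  rw [h, Matrix.det_mul, Matrix.det_fromBlocks_zero₁₂, Matrix.det_fromBlocks_zero₂₁]
  simp

theorem det_block_ne {n : Type*} [Fintype n] [DecidableEq n] (u : ℂ) (hu : u ≠ 0)
    (A A' : Matrix n n ℂ) (hA : A.det ≠ 0) (hA' : A'.det ≠ 0) : (block u A A').det ≠ 0 := by
  rw [det_block, Matrix.det_smul]
  refine mul_ne_zero hA (mul_ne_zero (pow_ne_zero _ ?_) hA')
  simpa using hu

end Pool.Agent.W242.FM
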