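import Pool.Agent.W242.FM.Zn

/-!
Relations of bounded degree with coefficients in the field of definition of the point.
-/

namespace Pool.Agent.W242.FM

open Complex

/-- the field of definition of the point `s₀` of the affine line over the number field `K` -/
noncomputable def kap (K : IntermediateField ℚ ℂ) (s₀ : ℂ) : IntermediateField ℚ ℂ :=
  K ⊔ IntermediateField.adjoin ℚ {s₀}

/-- There is a polynomial of total degree at most `δ` in the matrix entries, with coefficients in
`κ`, vanishing on `Z` and not vanishing on `B`. -/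
def HasRelation {m : Type*} (κ : IntermediateField ℚ ℂ) (δ : ℕ) (Z B : Set (Matrix m m ℂ)) :
    Prop :=
  ∃ F : MvPolynomial (m × m) κ, F.totalDegree ≤ δ ∧
    (∀ M ∈ Z, MvPolynomial.aeval (fun p : m × m => M p.1 p.2) F = (0 : ℂ)) ∧
    ∃ M ∈ B, MvPolynomial.aeval (fun p : m × m => M p.1 p.2) F ≠ (0 : ℂ)

theorem deg_le {σ κ : Type*} [Field κ] (x y : σ) (a : κ) :
    (MvPolynomial.X x - MvPolynomial.C a * MvPolynomial.X y : MvPolynomial σ κ).totalDegree ≤ 1 := by
  refine (MvPolynomial.totalDegree_sub _ _).trans (max_le ?_ ?_)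
  · exact (MvPolynomial.totalDegree_X x).le
  · refine (MvPolynomial.totalDegree_mul _ _).trans ?_
    rw [MvPolynomial.totalDegree_C, MvPolynomial.totalDegree_X]

/-- the points of the fibre are the `n`-th roots of `exp w` -/
theorem range_root (n : ℕ) (hn : n ≠ 0) (w : ℂ) :
    Set.range (fun j : Fin n => root n w j) = {z : ℂ | z ^ n = exp w} := by
  apply Set.Subset.antisymm
  · rintro _ ⟨j, rfl⟩
    exact root_pow n hn w j
  · intro z hz
    have hw : exp (w / n) ^ n = exp w := by
      rw [← Complex.exp_nat_mul]; congr 1; field_simp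
    have h4 : (z / exp (w / n)) ^ n = 1 := by
      rw [div_pow, hz.out, hw, div_self (Complex.exp_ne_zero _)]
    have : NeZero n := ⟨hn⟩
    obtain ⟨k, hk, hk2⟩ := (zt_prim n hn).eq_pow_of_pow_eq_one h4
    refine ⟨⟨k, hk⟩, ?_⟩
    show root n w k = z
    rw [root_eq, hk2]
    field_simp

theorem rel_per (K : IntermediateField ℚ ℂ) (n : ℕ) (hn : 2 ≤ n) (a : ℂ) (ha : a ≠ 0)
    (haK : a ∈ K) (hal : IsAlgebraic ℚ a) (w : ℂ) (hw : exp w = a ^ n) (δ : ℕ) (hδ : 1 ≤ δ) :
    HasRelation (kap K (exp w)) δ (pointClosure (per n w)) (fibre exp (per n) (exp w)) := by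
  have hn0 : n ≠ 0 := by omega
  let i0 : Fin n := ⟨0, by omega⟩
  let i1 : Fin n := ⟨1, by omega⟩
  have hk : a ∈ kap K (exp w) := (le_sup_left : K ≤ _) haK
  have hs : IsAlgebraic ℚ (exp w) := by rw [hw]; exact hal.pow n
  have hj : a ∈ Set.range (fun j : Fin n => root n w j) := by
    rw [range_root n hn0 w]; exact hw.symm
  obtain ⟨j, hj⟩ := hj
  have hj' : root n w j = a := hj
  refine ⟨MvPolynomial.X (i1, j) - MvPolynomial.C ⟨a, hk⟩ * MvPolynomial.X (i0, j),
    (deg_le _ _ _).trans hδ, ?_, per n (w + 2 * Real.pi * I * (1 : ℕ)), per_shift_mem n w 1, ?_⟩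
  · intro M hM
    rw [pointClosure_per n w hs, Set.mem_singleton_iff] at hM
    subst hM
    simp only [map_sub, map_mul, MvPolynomial.aeval_X, MvPolynomial.aeval_C,
      IntermediateField.algebraMap_apply, per, hj']
    simp [i0, i1]
  · intro h
    simp only [map_sub, map_mul, MvPolynomial.aeval_X, MvPolynomial.aeval_C,
      IntermediateField.algebraMap_apply, per] at h
    simp only [i0, i1, pow_one, pow_zero, mul_one] at h
    rw [root_shift, pow_add, pow_one] at h
    rw [root_eq] at hj'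
    have h2 : a * (zt n - 1) = 0 := by linear_combination h - zt n * hj'
    have h3 : zt n = 1 := by
      rcases mul_eq_zero.1 h2 with h4 | h4
      · exact absurd h4 ha
      · exact sub_eq_zero.1 h4
    have h5 := (zt_prim n hn0).pow_inj (i := 1) (j := 0) (by omega) (by omega)
      (by rw [pow_one, pow_zero]; exact h3)
    omega

theorem rel_block {n T : Type*} [Fintype n] [DecidableEq n] [Nonempty n]
    (K : IntermediateField ℚ ℂ) (u : T → ℂ) (ι : T → T)
    (P' : T → Matrix n n ℂ) (hu : ∀ τ, u τ ≠ 0) (hι : ∀ τ, u (ι τ) = -u τ)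
    (hP : ∀ τ, (P' τ).det ≠ 0) (τ : T) (ha : IsAlgebraic ℚ (u τ))
    (hk : u τ ∈ kap K (u τ ^ 2)) (δ : ℕ) (hδ : 1 ≤ δ) :
    HasRelation (kap K (u τ ^ 2)) δ (pointClosure (block (u τ) (P' τ) (P' (ι τ))))
      (fibre (fun τ => u τ ^ 2) (fun τ => block (u τ) (P' τ) (P' (ι τ))) (u τ ^ 2)) := by
  have hdet : ∀ τ, (block (u τ) (P' τ) (P' (ι τ))).det ≠ 0 := fun τ =>
    det_block_ne _ (hu τ) _ _ (hP τ) (hP (ι τ))
  have h1 := self_mem_fibre (fun τ => u τ ^ 2) (fun τ => block (u τ) (P' τ) (P' (ι τ))) hdet (ι τ)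
  simp only [hι τ, neg_sq] at h1
  have hP0 : ∃ i j, P' (ι τ) i j ≠ 0 := by
    by_contra hc
    push Not at hc
    have hz : P' (ι τ) = 0 := by ext i j; exact hc i j
    have := hP (ι τ)
    rw [hz, Matrix.det_zero] at this
    exact this rfl
  obtain ⟨i, j, hij⟩ := hP0
  have hau : u τ ∈ Qb := by rw [mem_algebraicClosure_iff]; exact ha
  refine ⟨MvPolynomial.X (Sum.inr i, Sum.inl j) -
    MvPolynomial.C ⟨u τ, hk⟩ * MvPolynomial.X (Sum.inl i, Sum.inl j),
    (deg_le _ _ _).trans hδ, ?_, _, h1, ?_⟩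
  · intro M hM
    have h3 := hM.2 (MvPolynomial.X (Sum.inr i, Sum.inl j) -
      MvPolynomial.C ⟨u τ, hau⟩ * MvPolynomial.X (Sum.inl i, Sum.inl j)) (by
        simp [evM, block, IntermediateField.algebraMap_apply])
    simpa [evM, IntermediateField.algebraMap_apply] using h3
  · intro h3
    simp only [block, map_sub, map_mul, MvPolynomial.aeval_X, MvPolynomial.aeval_C,
      IntermediateField.algebraMap_apply, Matrix.fromBlocks_apply₁₁, Matrix.fromBlocks_apply₂₁,
      Matrix.smul_apply, smul_eq_mul] at h3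
    have h4 : -(2 * u τ * P' (ι τ) i j) = 0 := by linear_combination h3
    rw [neg_eq_zero] at h4
    exact (mul_ne_zero (mul_ne_zero two_ne_zero (hu τ)) hij) h4

end Pool.Agent.W242.FM
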