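import Pool.Agent.W242.FM.Base

/-!
The covering `z ↦ z ^ n` of the punctured line: the period matrix of the zeroth cohomology.
-/

namespace Pool.Agent.W242.FM

open Complex

/-- the `j`-th point of the fibre of `z ↦ z ^ n` over `s = exp w`, continued along paths in `w` -/
noncomputable def root (n : ℕ) (w : ℂ) (j : ℕ) : ℂ := exp ((w + 2 * Real.pi * I * j) / n)

/-- the period matrix: the algebraic basis `1, z, ..., z ^ (n - 1)` of the relative de Rham
cohomology in degree `0`, evaluated at the points of the fibre -/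
noncomputable def per (n : ℕ) (w : ℂ) : Matrix (Fin n) (Fin n) ℂ := fun i j => root n w j ^ (i : ℕ)

/-- the primitive root of unity -/
noncomputable def zt (n : ℕ) : ℂ := exp (2 * Real.pi * I / n)

theorem zt_prim (n : ℕ) (hn : n ≠ 0) : IsPrimitiveRoot (zt n) n := Complex.isPrimitiveRoot_exp n hn

theorem root_eq (n : ℕ) (w : ℂ) (j : ℕ) : root n w j = exp (w / n) * zt n ^ j := by
  unfold root zt
  rw [← Complex.exp_nat_mul, ← Complex.exp_add]
  congr 1
  ring

theorem root_shift (n : ℕ) (w : ℂ) (k j : ℕ) :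
    root n (w + 2 * Real.pi * I * k) j = exp (w / n) * zt n ^ (k + j) := by
  rw [← root_eq]
  unfold root
  congr 1
  push_cast
  ring

theorem root_pow (n : ℕ) (hn : n ≠ 0) (w : ℂ) (j : ℕ) : root n w j ^ n = exp w := by
  rw [root_eq, mul_pow, ← pow_mul, mul_comm j n, pow_mul, (zt_prim n hn).pow_eq_one, one_pow,
    mul_one, ← Complex.exp_nat_mul]
  congr 1
  field_simp

theorem root_inj (n : ℕ) (w : ℂ) : Function.Injective (fun j : Fin n => root n w j) := by
  intro j j' h
  have hn : n ≠ 0 := by rintro rfl; exact j.elim0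
  simp only [root_eq] at h
  have h2 := mul_left_cancel₀ (Complex.exp_ne_zero _) h
  exact Fin.ext ((zt_prim n hn).pow_inj j.2 j'.2 h2)

theorem det_per (n : ℕ) (w : ℂ) : (per n w).det ≠ 0 := by
  have h : per n w = (Matrix.vandermonde (fun j : Fin n => root n w j)).transpose := by
    ext i j; rfl
  rw [h, Matrix.det_transpose, Matrix.det_vandermonde_ne_zero_iff]
  exact root_inj n w

theorem zt_mem (n : ℕ) (hn : n ≠ 0) : zt n ∈ Qb := by
  rw [mem_algebraicClosure_iff]
  have h1 : IsIntegral ℤ (zt n) := (zt_prim n hn).isIntegral (Nat.pos_of_ne_zero hn)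
  exact (h1.tower_top (A := ℚ)).isAlgebraic

theorem isAlg_of_pow {z : ℂ} {n : ℕ} (hn : n ≠ 0) (h : IsAlgebraic ℚ (z ^ n)) : IsAlgebraic ℚ z :=
  IsAlgebraic.of_pow (Nat.pos_of_ne_zero hn) h

theorem per_alg (n : ℕ) (w : ℂ) (h : IsAlgebraic ℚ (exp w)) (i j : Fin n) :
    IsAlgebraic ℚ (per n w i j) := by
  have hn : n ≠ 0 := by rintro rfl; exact j.elim0
  unfold per
  apply IsAlgebraic.pow
  apply isAlg_of_pow hn
  rw [root_pow n hn]
  exact h

theorem pointClosure_per (n : ℕ) (w : ℂ) (h : IsAlgebraic ℚ (exp w)) :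
    pointClosure (per n w) = {per n w} := by
  ext M
  constructor
  · intro hM
    rw [Set.mem_singleton_iff]
    ext i j
    have ha : per n w i j ∈ Qb := by rw [mem_algebraicClosure_iff]; exact per_alg n w h i j
    have h1 := hM.2 (MvPolynomial.X (i, j) - MvPolynomial.C ⟨per n w i j, ha⟩) (by
      simp [evM, IntermediateField.algebraMap_apply])
    simp only [evM, map_sub, MvPolynomial.aeval_X, MvPolynomial.aeval_C,
      IntermediateField.algebraMap_apply, sub_eq_zero] at h1
    exact h1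
  · intro hM
    rw [Set.mem_singleton_iff] at hM
    subst hM
    exact ⟨det_per n w, fun _ h => h⟩

theorem per_shift_mem (n : ℕ) (w : ℂ) (k : ℕ) :
    per n (w + 2 * Real.pi * I * k) ∈ fibre exp (per n) (exp w) := by
  have h := self_mem_fibre exp (per n) (det_per n) (w + 2 * Real.pi * I * k)
  have e : exp (w + 2 * Real.pi * I * k) = exp w := by
    rw [Complex.exp_add, mul_comm (2 * (Real.pi : ℂ) * I) (k : ℂ), Complex.exp_nat_mul,
      Complex.exp_two_pi_mul_I, one_pow, mul_one]
  rw [e] at h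
  exact h

theorem fibre_per (n : ℕ) (hn : 2 ≤ n) (w : ℂ) :
    fibre exp (per n) (exp w) =
      Set.range (fun k : Fin n => per n (w + 2 * Real.pi * I * (k : ℕ))) := by
  have hn0 : n ≠ 0 := by omega
  apply Set.Subset.antisymm
  · intro M hM
    let i0 : Fin n := ⟨0, by omega⟩
    let i1 : Fin n := ⟨1, by omega⟩
    have e0 : ∀ j, M i0 j = 1 := by
      intro j
      have h := hM.2 (MvPolynomial.X (some (i0, j)) - 1) (by
        intro τ
        simp [evS, per, i0])
      simpa [evS, sub_eq_zero] using h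
    have e1 : ∀ i j, M i j = M i1 j ^ (i : ℕ) := by
      intro i j
      have h := hM.2 (MvPolynomial.X (some (i, j)) - MvPolynomial.X (some (i1, j)) ^ (i : ℕ)) (by
        intro τ
        simp [evS, per, i1])
      simpa [evS, sub_eq_zero] using h
    have e2 : M i1 i0 ^ n = exp w := by
      have h := hM.2 (MvPolynomial.X (some (i1, i0)) ^ n - MvPolynomial.X none) (by
        intro τ
        have h3 := root_pow n hn0 τ 0
        simp [evS, per, i1, i0, sub_eq_zero]
        simpa using h3)
      simpa [evS, sub_eq_zero] using h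
    have e3 : ∀ j : Fin n, M i1 j = zt n ^ (j : ℕ) * M i1 i0 := by
      intro j
      have h := hM.2 (MvPolynomial.X (some (i1, j)) -
        MvPolynomial.C ⟨zt n, zt_mem n hn0⟩ ^ (j : ℕ) * MvPolynomial.X (some (i1, i0))) (by
        intro τ
        simp [evS, per, i1, i0, sub_eq_zero, root_eq, IntermediateField.algebraMap_apply]
        ring)
      simpa [evS, sub_eq_zero, IntermediateField.algebraMap_apply] using h
    -- M i1 i0 is an n-th root of exp w
    have hw : exp (w / n) ^ n = exp w := by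
      rw [← Complex.exp_nat_mul]; congr 1; field_simp
    have h4 : (M i1 i0 / exp (w / n)) ^ n = 1 := by
      rw [div_pow, e2, hw, div_self (Complex.exp_ne_zero _)]
    have : NeZero n := ⟨hn0⟩
    obtain ⟨k, hk, hk2⟩ := (zt_prim n hn0).eq_pow_of_pow_eq_one h4
    refine ⟨⟨k, hk⟩, ?_⟩
    ext i j
    show per n (w + 2 * Real.pi * I * (k : ℕ)) i j = M i j
    have h5 : M i1 i0 = exp (w / n) * zt n ^ k := by
      rw [hk2]
      field_simp
    rw [e1 i j, e3 j, h5]
    unfold per
    rw [root_shift]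
    congr 1
    rw [pow_add]
    ring
  · rintro _ ⟨k, rfl⟩
    exact per_shift_mem n w k

theorem per_shift_inj (n : ℕ) (hn : 2 ≤ n) (w : ℂ) :
    Function.Injective (fun k : Fin n => per n (w + 2 * Real.pi * I * (k : ℕ))) := by
  intro k k' h
  have h1 := congrFun (congrFun h ⟨1, by omega⟩) ⟨0, by omega⟩
  simp only [per, root_shift, pow_one, add_zero] at h1
  have h2 := mul_left_cancel₀ (Complex.exp_ne_zero _) h1
  exact Fin.ext ((zt_prim n (by omega)).pow_inj k.2 k'.2 h2)

theorem ncard_fibre (n : ℕ) (hn : 2 ≤ n) (w : ℂ) :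
    (fibre exp (per n) (exp w)).ncard = n := by
  rw [fibre_per n hn w, ← Nat.card_coe_set_eq, Nat.card_range_of_injective (per_shift_inj n hn w)]
  simp

/-- the general family over a double covering -/
theorem block_ne {n T : Type*} [Fintype n] [DecidableEq n] [Nonempty n] (u : T → ℂ) (ι : T → T)
    (P' : T → Matrix n n ℂ) (hu : ∀ τ, u τ ≠ 0) (hι : ∀ τ, u (ι τ) = -u τ)
    (hP : ∀ τ, (P' τ).det ≠ 0) (τ : T) (ha : IsAlgebraic ℚ (u τ)) :
    pointClosure (block (u τ) (P' τ) (P' (ι τ))) ⊂
      fibre (fun τ => u τ ^ 2) (fun τ => block (u τ) (P' τ) (P' (ι τ))) (u τ ^ 2) := by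
  have hdet : ∀ τ, (block (u τ) (P' τ) (P' (ι τ))).det ≠ 0 := fun τ =>
    det_block_ne _ (hu τ) _ _ (hP τ) (hP (ι τ))
  refine ⟨pointClosure_subset_fibre (fun τ => u τ ^ 2)
    (fun τ => block (u τ) (P' τ) (P' (ι τ))) τ (ha.pow 2), fun hsub => ?_⟩
  have h1 := self_mem_fibre (fun τ => u τ ^ 2) (fun τ => block (u τ) (P' τ) (P' (ι τ))) hdet (ι τ)
  simp only [hι τ, neg_sq] at h1
  have h2 := hsub h1
  have hP0 : ∃ i j, P' (ι τ) i j ≠ 0 := by
    by_contra hc
    push Not at hc
    have hz : P' (ι τ) = 0 := by ext i j; exact hc i j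
    have := hP (ι τ)
    rw [hz, Matrix.det_zero] at this
    exact this rfl
  obtain ⟨i, j, hij⟩ := hP0
  have hau : u τ ∈ Qb := by rw [mem_algebraicClosure_iff]; exact ha
  have h3 := h2.2 (MvPolynomial.X (Sum.inr i, Sum.inl j) -
    MvPolynomial.C ⟨u τ, hau⟩ * MvPolynomial.X (Sum.inl i, Sum.inl j)) (by
      simp [evM, block, IntermediateField.algebraMap_apply])
  simp only [evM, block, map_sub, map_mul, MvPolynomial.aeval_X, MvPolynomial.aeval_C,
    IntermediateField.algebraMap_apply, Matrix.fromBlocks_apply₁₁, Matrix.fromBlocks_apply₂₁,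
    Matrix.smul_apply, smul_eq_mul] at h3
  have h4 : -(2 * u τ * P' (ι τ) i j) = 0 := by linear_combination h3
  rw [neg_eq_zero] at h4
  exact (mul_ne_zero (mul_ne_zero two_ne_zero (hu τ)) hij) h4

end Pool.Agent.W242.FM
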